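import Mathlib
import Pool.Agent.Y16.AF.StmA

/-! # Project AF: second logarithmic derivative of products and determinants -/

set_option autoImplicit false

open Matrix

namespace Pool.Agent.Y153.AF

open Pool.Agent.Y16.AF

section det

variable {n : Type} [Fintype n] [DecidableEq n]

/-- the determinant as a continuous multilinear map of the rows, over the reals -/
noncomputable def detCM : ContinuousMultilinearMap ℝ (fun _ : n => n → ℂ) ℂ :=
  { ((Matrix.detRowAlternating (R := ℂ) (n := n)).toMultilinearMap.restrictScalars ℝ) with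
    cont := by
      change Continuous (fun v : n → n → ℂ => (Matrix.of v).det)
      exact Continuous.matrix_det continuous_id }

lemma hasDerivAt_det (v : ℝ → Matrix n n ℂ) (w : Matrix n n ℂ) (t : ℝ)
    (hv : ∀ i j, HasDerivAt (fun s => v s i j) (w i j) t) :
    HasDerivAt (fun s => (v s).det) (trace ((v t).adjugate * w)) t := by
  have h1 : HasDerivAt (fun s => (fun i j => v s i j : n → n → ℂ)) (fun i j => w i j) t :=
    hasDerivAt_pi.2 (fun i => hasDerivAt_pi.2 (fun j => hv i j))
  have h2 := ((detCM (n := n)).hasFDerivAt (x := (fun i j => v t i j))).comp_hasDerivAt t h1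
  rw [ContinuousMultilinearMap.linearDeriv_apply] at h2
  have h3 : ∑ i, (detCM (n := n)) (Function.update (fun i j => v t i j) i (fun j => w i j)) =
      trace ((v t).adjugate * w) := by
    have h4 : ∀ i, (detCM (n := n)) (Function.update (fun i j => v t i j) i (fun j => w i j)) =
        ∑ j, (v t).adjugate j i * w i j := by
      intro i
      have h5 : (detCM (n := n)) (Function.update (fun i j => v t i j) i (fun j => w i j)) =
          ((v t).updateRow i (w i)).det := rfl
      rw [h5, ← cramer_transpose_apply, cramer_eq_adjugate_mulVec, mulVec, dotProduct]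
      refine Finset.sum_congr rfl fun j _ => ?_
      rw [← adjugate_transpose, transpose_apply]
    simp only [h4]
    rw [trace, Finset.sum_comm]
    refine Finset.sum_congr rfl fun j _ => ?_
    rw [diag_apply, mul_apply]
  rw [h3] at h2
  exact h2

lemma exists_deriv_adj (h : ℝ → Matrix n n ℂ) (h' : Matrix n n ℂ) (t : ℝ)
    (hh : ∀ i j, HasDerivAt (fun y => h y i j) (h' i j) t) :
    ∃ A' : Matrix n n ℂ, ∀ i j, HasDerivAt (fun y => (h y).adjugate i j) (A' i j) t := by
  have key : ∀ i j, ∃ a, HasDerivAt (fun y => (h y).adjugate i j) a t := by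
    intro i j
    simp only [adjugate_apply]
    refine ⟨_, hasDerivAt_det (fun y => (h y).updateRow j (Pi.single i 1))
      (h'.updateRow j 0) t ?_⟩
    intro a b
    by_cases ha : a = j
    · subst ha
      simp only [updateRow_self, Pi.zero_apply]
      exact hasDerivAt_const _ _
    · simp only [updateRow_ne ha]
      exact hh a b
  choose A' hA' using key
  exact ⟨Matrix.of A', hA'⟩

omit [DecidableEq n] in
lemma hasDerivAt_mul_entry (A B : ℝ → Matrix n n ℂ) (A' B' : Matrix n n ℂ) (t : ℝ)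
    (hA : ∀ i j, HasDerivAt (fun y => A y i j) (A' i j) t)
    (hB : ∀ i j, HasDerivAt (fun y => B y i j) (B' i j) t) (i j : n) :
    HasDerivAt (fun y => (A y * B y) i j) ((A' * B t + A t * B') i j) t := by
  simp only [mul_apply, Matrix.add_apply]
  rw [← Finset.sum_add_distrib]
  exact HasDerivAt.fun_sum fun k _ => (hA i k).fun_mul (hB k j)

lemma hasDerivAt_trace_mul (A B : ℝ → Matrix n n ℂ) (A' B' : Matrix n n ℂ) (t : ℝ)
    (hA : ∀ i j, HasDerivAt (fun y => A y i j) (A' i j) t)
    (hB : ∀ i j, HasDerivAt (fun y => B y i j) (B' i j) t) :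
    HasDerivAt (fun y => trace (A y * B y)) (trace (A' * B t + A t * B')) t := by
  simp only [trace, diag_apply]
  exact HasDerivAt.fun_sum fun k _ => hasDerivAt_mul_entry A B A' B' t hA hB k k

theorem ld2_det (h h' : ℝ → Matrix n n ℂ) (h2 : Matrix n n ℂ)
    (hh : ∀ x i j, HasDerivAt (fun y => h y i j) (h' x i j) x)
    (hh' : ∀ i j, HasDerivAt (fun y => h' y i j) (h2 i j) 0) (hdet : det (h 0) ≠ 0) :
    ld2 (fun x => det (h x)) =
      trace ((h 0)⁻¹ * h2) - trace ((h 0)⁻¹ * h' 0 * ((h 0)⁻¹ * h' 0)) := by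
  have hu : IsUnit (h 0).det := isUnit_iff_ne_zero.mpr hdet
  have hd1 : ∀ x, HasDerivAt (fun y => det (h y)) (trace ((h x).adjugate * h' x)) x :=
    fun x => hasDerivAt_det h (h' x) x (hh x)
  have hderiv : deriv (fun y => det (h y)) = fun x => trace ((h x).adjugate * h' x) :=
    funext fun x => (hd1 x).deriv
  obtain ⟨A', hA'⟩ := exists_deriv_adj h (h' 0) 0 (hh 0)
  have hd2 : HasDerivAt (fun x => trace ((h x).adjugate * h' x))
      (trace (A' * h' 0 + (h 0).adjugate * h2)) 0 :=
    hasDerivAt_trace_mul (fun x => (h x).adjugate) h' A' h2 0 hA' hh'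
  -- the derivative of the adjugate
  have hA0 : (h 0).adjugate = (h 0).det • (h 0)⁻¹ := by
    rw [inv_def, smul_smul, Ring.mul_inverse_cancel _ hu, one_smul]
  set D : ℂ := det (h 0) with hD
  set D' : ℂ := trace ((h 0).adjugate * h' 0) with hD'
  have hrel : A' * h 0 + (h 0).adjugate * h' 0 = D' • (1 : Matrix n n ℂ) := by
    ext i j
    have e1 := hasDerivAt_mul_entry (fun x => (h x).adjugate) h A' (h' 0) 0 hA' (hh 0) i j
    have e2 : HasDerivAt (fun y => ((h y).adjugate * h y) i j)
        ((D' • (1 : Matrix n n ℂ)) i j) 0 := by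
      simp only [adjugate_mul, Matrix.smul_apply, smul_eq_mul]
      exact (hd1 0).mul_const _
    exact e1.unique e2
  have hA'eq : A' = D' • (h 0)⁻¹ - (D • (h 0)⁻¹) * h' 0 * (h 0)⁻¹ := by
    have e1 : A' * h 0 = D' • (1 : Matrix n n ℂ) - (h 0).adjugate * h' 0 := by
      rw [← hrel]
      abel
    have e2 : A' * h 0 * (h 0)⁻¹ = A' := by
      rw [Matrix.mul_assoc, mul_nonsing_inv _ hu, Matrix.mul_one]
    rw [← e2, e1, hA0, Matrix.sub_mul, Matrix.smul_mul, Matrix.one_mul]
  have hD'eq : D' = D * trace ((h 0)⁻¹ * h' 0) := by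
    rw [hD', hA0, Matrix.smul_mul, trace_smul, smul_eq_mul]
  unfold ld2
  rw [hderiv, hd2.deriv]
  show trace (A' * h' 0 + (h 0).adjugate * h2) / D - (D' / D) ^ 2 = _
  have hT : trace (A' * h' 0 + (h 0).adjugate * h2) =
      D' * trace ((h 0)⁻¹ * h' 0) - D * trace ((h 0)⁻¹ * h' 0 * ((h 0)⁻¹ * h' 0)) +
        D * trace ((h 0)⁻¹ * h2) := by
    rw [trace_add, hA'eq, hA0, Matrix.sub_mul, trace_sub]
    simp only [Matrix.smul_mul, trace_smul, smul_eq_mul, Matrix.mul_assoc]
  rw [hT, hD'eq]
  field_simp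
  ring

end det

theorem ld2_mul (f g : ℝ → ℂ) (hf : ContDiff ℝ 2 f) (hg : ContDiff ℝ 2 g) (hf0 : f 0 ≠ 0)
    (hg0 : g 0 ≠ 0) : ld2 (fun x => f x * g x) = ld2 f + ld2 g := by
  have hf' : ContDiff ℝ (1 + 1) f := by
    rw [one_add_one_eq_two]
    exact hf
  have hg' : ContDiff ℝ (1 + 1) g := by
    rw [one_add_one_eq_two]
    exact hg
  obtain ⟨f1, -, f2⟩ := contDiff_succ_iff_deriv.mp hf'
  obtain ⟨g1, -, g2⟩ := contDiff_succ_iff_deriv.mp hg'
  have f3 : Differentiable ℝ (deriv f) := f2.differentiable (by norm_num)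
  have g3 : Differentiable ℝ (deriv g) := g2.differentiable (by norm_num)
  have e1 : deriv (fun x => f x * g x) = fun x => deriv f x * g x + f x * deriv g x :=
    funext fun x => deriv_fun_mul (f1 x) (g1 x)
  have e2 : deriv (fun x => deriv f x * g x + f x * deriv g x) 0 =
      (deriv (deriv f) 0 * g 0 + deriv f 0 * deriv g 0) +
        (deriv f 0 * deriv g 0 + f 0 * deriv (deriv g) 0) :=
    ((((f3 0).hasDerivAt.fun_mul (g1 0).hasDerivAt).fun_add
      ((f1 0).hasDerivAt.fun_mul (g3 0).hasDerivAt))).deriv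
  unfold ld2
  rw [e1, e2]
  field_simp
  ring

theorem ld2_const (c : ℂ) : ld2 (fun _ => c) = 0 := by
  unfold ld2
  simp

theorem af_ld2 : S_LD2 := by
  refine ⟨ld2_mul, ld2_const, ?_⟩
  intro n _ _ h h' h2 hh hh' hdet
  exact ld2_det h h' h2 hh hh' hdet

end Pool.Agent.Y153.AF
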